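import Pool.Agent.H743.JL.StmZ
import Pool.Agent.H114.X21.All

/-!
# JZ-D21: the data of `X_0(21)`
-/

set_option autoImplicit false
set_option linter.all false

open scoped Classical

namespace Pool.Agent.H734.D21

open Pool.Agent.H743.JL
open Pool.Agent.H114.X21 (WM DD K21 EM parts isN DD_ne nsq_DD)
open Pool.Agent.W97.MT (affCount)
open Pool.Agent.H743.X17 (TamProd)

theorem no12 {p : ℕ} (hp : p.Prime) {c N : ℤ} (hc : ¬ (p : ℤ) ^ 6 ∣ c) (hN : ¬ (p : ℤ) ^ 2 ∣ N) :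
    ¬ (p : ℤ) ^ 12 ∣ c * N ^ 6 := by
  intro h
  have hpp : Prime (p : ℤ) := Nat.prime_iff_prime_int.1 hp
  by_cases hd : (p : ℤ) ∣ N
  · obtain ⟨k, rfl⟩ := hd
    have hk : ¬ (p : ℤ) ∣ k := by
      rintro ⟨t, ht⟩
      exact hN ⟨t, by rw [ht]; ring⟩
    have h2 : (p : ℤ) ^ 6 ∣ c * k ^ 6 := by
      have e : c * ((p : ℤ) * k) ^ 6 = (p : ℤ) ^ 6 * (c * k ^ 6) := by ring
      have e2 : (p : ℤ) ^ 12 = (p : ℤ) ^ 6 * (p : ℤ) ^ 6 := by ring
      rw [e, e2] at h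
      exact (mul_dvd_mul_iff_left (pow_ne_zero 6 hpp.ne_zero)).1 h
    have hcop : IsCoprime ((p : ℤ) ^ 6) (k ^ 6) :=
      IsCoprime.pow (hpp.coprime_iff_not_dvd.2 hk)
    exact hc (hcop.dvd_of_dvd_mul_right h2)
  · have hcop : IsCoprime ((p : ℤ) ^ 12) (N ^ 6) :=
      IsCoprime.pow (hpp.coprime_iff_not_dvd.2 hd)
    exact hc ((pow_dvd_pow _ (by norm_num)).trans (hcop.dvd_of_dvd_mul_right h))

theorem no6 {p : ℕ} (hp : p.Prime) (h2 : p ≠ 2) : ¬ (p : ℤ) ^ 6 ∣ 3 ^ 4 * 7 ^ 2 := by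
  intro h
  by_cases h3 : p = 3
  · subst h3
    norm_num at h
  · have h5 : 5 ≤ p := by
      have := hp.two_le
      by_contra hlt
      have : p = 4 := by omega
      subst this
      exact absurd hp (by norm_num)
    have h6 := Int.le_of_dvd (by norm_num) h
    have h7 : (5 : ℤ) ^ 6 ≤ (p : ℤ) ^ 6 := pow_le_pow_left₀ (by norm_num) (by exact_mod_cast h5) 6
    norm_num at h6 h7
    linarith

theorem a3_WM (m : ℤ) : (WM m).a₆ = 0 := by
  unfold Pool.Agent.H114.X21.WM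
  split_ifs <;> rfl

theorem affCount_pos (m : ℤ) (p : ℕ) (hp : p.Prime) : 0 < affCount (WM m) p := by
  haveI : Fact p.Prime := ⟨hp⟩
  have h6 := a3_WM m
  unfold Pool.Agent.W97.MT.affCount
  have : Nonempty {P : ZMod p × ZMod p //
      ((WM m).map (Int.castRingHom (ZMod p))).toAffine.Equation P.1 P.2} := by
    refine ⟨⟨(0, 0), ?_⟩⟩
    rw [WeierstrassCurve.Affine.equation_zero]
    change (Int.castRingHom (ZMod p)) (WM m).a₆ = 0
    rw [h6, map_zero]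
  exact Nat.card_pos

theorem tam_pos {m : ℤ} (hK : K21 m) : 0 < TamProd (WM m) := by
  rw [Pool.Agent.H114.X21.tamProd_eq parts hK]
  refine Nat.mul_pos (Nat.mul_pos (by positivity) ?_) ?_
  · split_ifs <;> norm_num
  · split_ifs <;> norm_num

theorem t_D21 (h1 : S_GM) : S_D21 := by
  intro m hs hF
  obtain ⟨hneg, h3, h7⟩ := hF
  have hK : K21 m := ⟨hneg, hs, h3, h7⟩
  obtain ⟨hO, f, y, hf, hyF, hyG, hv⟩ := Pool.Agent.H114.X21.main parts hK
  have hGm : Pool.Agent.H114.X21.Gm m ↔ H4 m := h1 m hneg hK.ne_one hs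
  refine ⟨WM m, f, DD m, hf, ?_, ?_, isN.c4, isN.c6, ?_, ?_, ?_, ?_, ?_⟩
  · unfold Pool.Agent.H114.X21.DD
    split_ifs
    · exact Or.inl rfl
    · exact Or.inr rfl
  · rw [isN.Delta]
    exact mul_ne_zero (by norm_num) (pow_ne_zero 6 (DD_ne hneg.ne))
  · rw [isN.Delta]
    exact ⟨3 ^ 3 * 7 ^ 2 * DD m ^ 6, by ring⟩
  · intro p hp h2
    rw [isN.Delta]
    exact no12 hp (no6 hp h2) (nsq_DD hs hp h2)
  · exact affCount_pos m
  · exact (hyF.symm.trans hyG).trans hGm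
  · intro h4
    have hy : Odd y := hyG.2 (hGm.2 h4)
    have hy0 : 0 < y := hy.pos
    have h1 : (0 : ℝ) < y := by exact_mod_cast hy0
    have h2 : (0 : ℝ) < (TamProd (WM m) : ℝ) := by exact_mod_cast tam_pos hK
    have h3 : (0 : ℝ) < (y : ℝ) ^ 2 * (TamProd (WM m) : ℝ) / 16 *
        Pool.Agent.Y700.Omega (WM m) :=
      mul_pos (div_pos (mul_pos (pow_pos h1 2) h2) (by norm_num)) hO
    rw [hv]
    exact_mod_cast h3.ne'

end Pool.Agent.H734.D21
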